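import Pool.Agent.Helper37.RX.Defs3

/-!
# MP_93aa28_lc: exceptional sets (definition)
-/

set_option autoImplicit false

namespace Pool.Agent.Helper37.RY

open Pool.Agent.Helper37.RW (Neutral)
open Pool.Agent.Helper37.RX (Ser)

/-- exceptional: the series `1 + ∑ z ^ j` is the inverse of a polynomial, `S` is not neutral, `2 * d`
belongs to `S` if `d` is the least positive element of `S`, and for every `B` which is at least `2 * d`
for some positive element `d` of `S` there is an element of `S` which is larger than `B` and at most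
`3 * B / 2` -/
def Exceptional (S : Set ℕ) : Prop :=
  (∃ u : Polynomial ℂ, (u : PowerSeries ℂ) * Ser S = 1) ∧ ¬ Neutral S ∧
    (∀ d ∈ S, 0 < d → (∀ j ∈ S, 0 < j → d ≤ j) → 2 * d ∈ S) ∧
    ∀ B, (∃ d ∈ S, 0 < d ∧ 2 * d ≤ B) → ∃ j ∈ S, B < j ∧ 2 * j ≤ 3 * B

end Pool.Agent.Helper37.RY
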