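import Pool.Agent.Helper37.RX.H
import Pool.Agent.Helper37.RY.Defs

/-!
# Heads and tails of the words of a code; removing the long runs of one letter
-/

set_option autoImplicit false

namespace Pool.Agent.Helper37.RY

open Pool.Agent.Helper31.BD
open Pool.Agent.Helper37.RV (pr pr_self pr_ne pr_append pr_rep pr_free Complete RunLang Ez)
open Pool.Agent.Helper37.RU (tl tl_self tl_ne tl_append tl_rep tl_last exists_rep)
open Pool.Agent.Helper37.RX

variable {S : ℕ → Set ℕ} {n : ℕ}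

/-- some word of the code ends in exactly `i` letters `c` (after a different letter) -/
def Tail (C : Finset (List ℕ)) (c i : ℕ) : Prop :=
  ∃ w ∈ C, ∃ (z : List ℕ) (x : ℕ), w = z ++ (x :: List.replicate i c) ∧ x ≠ c

/-- some word of the code begins with exactly `j` letters `c` (before a different letter) -/
def Head (C : Finset (List ℕ)) (c j : ℕ) : Prop :=
  ∃ w ∈ C, ∃ (x : ℕ) (z : List ℕ), w = List.replicate j c ++ (x :: z) ∧ x ≠ c

theorem tail_decomp (c : ℕ) : ∀ (z : List ℕ) (m : ℕ),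
    (∃ (u : List ℕ) (x : ℕ), z = u ++ (x :: List.replicate (tl c m z) c) ∧ x ≠ c) ∨
      (z = List.replicate z.length c ∧ tl c m z = m + z.length) := by
  intro z
  induction z with
  | nil => intro m; right; exact ⟨rfl, rfl⟩
  | cons l z ih =>
    intro m
    by_cases hl : l = c
    · subst hl
      rw [tl_self]
      rcases ih (m + 1) with ⟨u, x, h1, h2⟩ | ⟨h1, h2⟩
      · left
        refine ⟨l :: u, x, ?_, h2⟩
        rw [List.cons_append, ← h1]
      · right
        refine ⟨?_, ?_⟩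
        · rw [List.length_cons, List.replicate_succ, ← h1]
        · rw [h2, List.length_cons]
          omega
    · rw [tl_ne _ _ _ _ hl]
      rcases ih 0 with ⟨u, x, h1, h2⟩ | ⟨h1, h2⟩
      · left
        refine ⟨l :: u, x, ?_, h2⟩
        rw [List.cons_append, ← h1]
      · left
        refine ⟨[], l, ?_, hl⟩
        rw [h2, Nat.zero_add, List.nil_append, ← h1]

theorem tail_head {C : Finset (List ℕ)} (hL : RunLang n S = Fac C) {c i j : ℕ}
    (hi : Tail C c i) (hj : Head C c j) : i + j ∈ Ez S c := by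
  obtain ⟨w, hw, z, x, h1, hx⟩ := hi
  obtain ⟨w', hw', y, z', h2, hy⟩ := hj
  have h3 : w ++ w' ∈ RunLang n S := by
    rw [hL]
    refine ⟨[], [], [w, w'], ?_, by simp⟩
    intro a ha
    simp only [List.mem_cons, List.not_mem_nil, or_false] at ha
    rcases ha with h | h
    · rw [h]; exact hw
    · rw [h]; exact hw'
  have h4 : w ++ w' = z ++ (x :: (List.replicate (i + j) c ++ (y :: z'))) := by
    rw [h1, h2, List.replicate_add]
    simp only [List.append_assoc, List.cons_append]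
  rw [h4] at h3
  exact run_mem h3 hx hy

theorem tail_zero {C : Finset (List ℕ)} (hC : UD C) (hL : RunLang n S = Fac C) (hn : 3 ≤ n)
    (hne : ∀ a < n, ∃ j ∈ S a, 0 < j) (c : ℕ) : Tail C c 0 := by
  obtain ⟨d, hd, hd0, hcd⟩ := avoid hC hL hn hne c
  obtain ⟨u, x, hux⟩ := last_of hd0
  refine ⟨d, hd, u, x, by rw [hux]; rfl, fun h => hcd ?_⟩
  rw [hux, h]
  simp

theorem head_zero {C : Finset (List ℕ)} (hC : UD C) (hL : RunLang n S = Fac C) (hn : 3 ≤ n)
    (hne : ∀ a < n, ∃ j ∈ S a, 0 < j) (c : ℕ) : Head C c 0 := by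
  obtain ⟨d, hd, hd0, hcd⟩ := avoid hC hL hn hne c
  obtain ⟨z, v, hzv⟩ : ∃ z v, d = z :: v := by
    cases d with
    | nil => exact absurd rfl hd0
    | cons z v => exact ⟨z, v, rfl⟩
  refine ⟨d, hd, z, v, by rw [hzv]; rfl, fun h => hcd ?_⟩
  rw [hzv, h]
  simp

/-- removing the long runs of one letter -/
theorem shrink_gen {C : Finset (List ℕ)} (hC : UD C) (hL : RunLang n S = Fac C) (hn : 3 ≤ n)
    (hne : ∀ a < n, ∃ j ∈ S a, 0 < j) (c : ℕ) (B : ℕ)
    (hB1 : ∃ j ∈ S c, 0 < j ∧ j ≤ B)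
    (hB2 : ∀ i j, Tail C c i → Head C c j → i ≤ B → j ≤ B → i + j ≤ B)
    (hB3 : ∀ k, 0 < k → List.replicate k c ∈ C → B < k) :
    ∃ C' : Finset (List ℕ), UD C' ∧
      RunLang n (Function.update S c {j | j ∈ S c ∧ j ≤ B}) = Fac C' := by
  classical
  let S' : ℕ → Set ℕ := Function.update S c {j | j ∈ S c ∧ j ≤ B}
  have hS'c : S' c = {j | j ∈ S c ∧ j ≤ B} := Function.update_self ..
  have hS'a : ∀ a, a ≠ c → S' a = S a := fun a ha => Function.update_of_ne ha ..
  have hsub : ∀ a, S' a ⊆ S a := by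
    intro a j hj
    by_cases ha : a = c
    · subst ha
      rw [hS'c] at hj
      exact hj.1
    · rw [hS'a a ha] at hj
      exact hj
  have hne' : ∀ a < n, ∃ j ∈ S' a, 0 < j := by
    intro a ha
    by_cases hac : a = c
    · subst hac
      obtain ⟨j, h1, h2, h3⟩ := hB1
      exact ⟨j, by rw [hS'c]; exact ⟨h1, h3⟩, h2⟩
    · rw [hS'a a hac]
      exact hne a ha
  have hT1 : ∀ j ∈ Ez S' c, j ∈ Ez S c ∧ j ≤ B := by
    intro j hj
    rcases hj with hj | hj
    · rw [hj]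
      exact ⟨ez0 c, Nat.zero_le _⟩
    · rw [hS'c] at hj
      exact ⟨Or.inr hj.1, hj.2⟩
  have hT2 : ∀ j ∈ Ez S c, j ≤ B → j ∈ Ez S' c := by
    intro j hj hj2
    rcases hj with hj | hj
    · rw [hj]
      exact ez0 c
    · right
      rw [hS'c]
      exact ⟨hj, hj2⟩
  -- the words of the code in the smaller language
  have single : ∀ w ∈ C, w ∈ RunLang n S' → ∃ j x z m1 m2, w = List.replicate j c ++ (x :: z) ∧
      x ≠ c ∧ m1 + j ∈ Ez S' c ∧ pr (Ez S' c) c 0 z ∧ tl c 0 z + m2 ∈ Ez S' c := by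
    intro w hw hwL
    obtain ⟨m1, m2, h1, h2⟩ := (loc (mem_lt hwL)).1 hwL c
    obtain ⟨j, z, h3, h4⟩ := exists_rep c w
    rcases h4 with h4 | ⟨x, y, h4, hx⟩
    · exfalso
      rw [h4, List.append_nil] at h3
      have h5 := tl_rep c j [] m1
      rw [List.append_nil, ← h3] at h5
      rw [h5] at h2
      have h6 := (hT1 _ h2).2
      simp only [tl] at h6
      have h8 : 0 < j := by
        rcases Nat.eq_zero_or_pos j with h7 | h7
        · rw [h7, List.replicate_zero] at h3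
          exact absurd (h3 ▸ hw) (nil_not hC)
        · exact h7
      have h9 := hB3 j h8 (h3 ▸ hw)
      omega
    · rw [h4] at h3
      rw [h3, pr_rep, pr_ne _ _ _ _ _ hx] at h1
      rw [h3, tl_rep, tl_ne _ _ _ _ hx] at h2
      exact ⟨j, x, y, m1, m2, h3, hx, h1.1, h1.2, h2⟩
  have step : ∀ (w : List ℕ) (l : List (List ℕ)) (m j x : ℕ) (z : List ℕ) (m2 : ℕ),
      w = List.replicate j c ++ (x :: z) → x ≠ c → m + j ∈ Ez S' c → pr (Ez S' c) c 0 z →
      tl c 0 z + m2 ∈ Ez S' c →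
      (pr (Ez S c) c (tl c 0 z) l.flatten → pr (Ez S' c) c (tl c 0 z) l.flatten ∧
        (l = [] ∨ ∃ m', tl c (tl c 0 z) l.flatten + m' ∈ Ez S' c)) →
      pr (Ez S c) c m (w :: l).flatten → pr (Ez S' c) c m (w :: l).flatten ∧
        ∃ m', tl c m (w :: l).flatten + m' ∈ Ez S' c := by
    intro w l m j x z m2 h1 hx h2 h3 h4 ih hp
    have hf : (w :: l).flatten = List.replicate j c ++ (x :: (z ++ l.flatten)) := by
      rw [List.flatten_cons, h1]
      simp
    rw [hf, pr_rep, pr_ne _ _ _ _ _ hx, pr_append] at hp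
    rw [hf, pr_rep, pr_ne _ _ _ _ _ hx, pr_append, tl_rep, tl_ne _ _ _ _ hx, tl_append]
    obtain ⟨p1, p2, p3⟩ := hp
    obtain ⟨i1, i2⟩ := ih p3
    refine ⟨⟨h2, h3, i1⟩, ?_⟩
    rcases i2 with i2 | i2
    · refine ⟨m2, ?_⟩
      rw [i2]
      exact h4
    · exact i2
  have htail : ∀ (w : List ℕ) (j x : ℕ) (z : List ℕ), w ∈ C →
      w = List.replicate j c ++ (x :: z) → x ≠ c → Tail C c (tl c 0 z) := by
    intro w j x z hw h1 hx
    rcases tail_decomp c z 0 with ⟨u, y, h2, hy⟩ | ⟨h2, h3⟩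
    · refine ⟨w, hw, List.replicate j c ++ (x :: u), y, ?_, hy⟩
      rw [h1]
      nth_rw 1 [h2]
      simp
    · refine ⟨w, hw, List.replicate j c, x, ?_, hx⟩
      rw [h1, h3, Nat.zero_add, ← h2]
  have main : ∀ l : List (List ℕ), Over C l → (∀ w ∈ l, w ∈ RunLang n S') → ∀ m, m ≤ B →
      Tail C c m → pr (Ez S c) c m l.flatten → pr (Ez S' c) c m l.flatten ∧
        (l = [] ∨ ∃ m', tl c m l.flatten + m' ∈ Ez S' c) := by
    intro l
    induction l with
    | nil => intro _ _ m _ _ _; exact ⟨trivial, Or.inl rfl⟩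
    | cons w l ih =>
      intro hl hlL m hm ht hp
      obtain ⟨j, x, z, m1, m2, h1, hx, h2, h3, h4⟩ := single w (hl w (by simp)) (hlL w (by simp))
      have h5 := (hT1 _ h2).2
      have h6 := (hT1 _ h4).2
      have hpm : m + j ∈ Ez S c := by
        have hf : (w :: l).flatten = List.replicate j c ++ (x :: (z ++ l.flatten)) := by
          rw [List.flatten_cons, h1]
          simp
        rw [hf, pr_rep, pr_ne _ _ _ _ _ hx] at hp
        exact hp.1
      have hmj : m + j ≤ B :=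
        hB2 m j ht ⟨w, hl w (by simp), x, z, h1, hx⟩ hm (by omega)
      obtain ⟨k1, k2⟩ := step w l m j x z m2 h1 hx (hT2 _ hpm hmj) h3 h4
        (fun hp' => ih (fun c hc => hl c (by simp [hc])) (fun w hw => hlL w (by simp [hw]))
          (tl c 0 z) (by omega) (htail w j x z (hl w (by simp)) h1 hx) hp') hp
      exact ⟨k1, Or.inr k2⟩
  have hres := restrict hC (RunLang n S') (by rw [← hL]; exact run_mono hsub)
    (fun u w v h => run_factor h)
    (fun w hw => by
      obtain ⟨U, V, h1, h2, h3⟩ := ext (by omega) hne' (Ml C) hw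
      exact ⟨U, V, h1.ge, h2.ge, h3⟩)
    (by
      intro l hl hlL hl0
      have hF : l.flatten ∈ RunLang n S := by
        rw [hL]
        exact flat_mem hl
      have hlt := mem_lt hF
      rw [loc hlt]
      intro a
      obtain ⟨m, m', h1, h2⟩ := (loc hlt).1 hF a
      by_cases hac : a = c
      · subst hac
        cases l with
        | nil => exact absurd rfl hl0
        | cons w l =>
          obtain ⟨j, x, z, m1, m2, k1, hx, k2, k3, k4⟩ := single w (hl w (by simp))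
            (hlL w (by simp))
          have hf : (w :: l).flatten = List.replicate j a ++ (x :: (z ++ l.flatten)) := by
            rw [List.flatten_cons, k1]
            simp
          have hT := hT1 _ k2
          have hT4 := hT1 _ k4
          have hp : pr (Ez S a) a m1 (w :: l).flatten := by
            rw [hf, pr_rep, pr_ne _ _ _ _ _ hx] at h1 ⊢
            exact ⟨hT.1, h1.2⟩
          obtain ⟨i1, m', i2⟩ := step w l m1 j x z m2 k1 hx k2 k3 k4
            (fun hp' => main l (fun c hc => hl c (by simp [hc])) (fun w hw => hlL w (by simp [hw]))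
              (tl a 0 z) (by omega) (htail w j x z (hl w (by simp)) k1 hx) hp') hp
          exact ⟨m1, m', i1, i2⟩
      · have hEz : Ez S' a = Ez S a := by
          unfold Ez
          rw [hS'a a hac]
        rw [hEz]
        exact ⟨m, m', h1, h2⟩)
    run_nil
  exact ⟨_, hres.1, hres.2⟩

/-- the chain lemma -/
theorem chain {E I J : Set ℕ} (h : ∀ i ∈ I, ∀ j ∈ J, i + j ∈ E) (B d : ℕ) (hdB : 2 * d ≤ B)
    (hgap : ∀ e ∈ E, B < e → 3 * B < 2 * e) :
    ∃ B', d ≤ B' ∧ ∀ i ∈ I, ∀ j ∈ J, i ≤ B' → j ≤ B' → i + j ≤ B' := by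
  classical
  by_cases h0 : ∀ i ∈ I, ∀ j ∈ J, i ≤ B → j ≤ B → i + j ≤ B
  · exact ⟨B, by omega, h0⟩
  push Not at h0
  obtain ⟨x0, hx0, y0, hy0, hx0B, hy0B, h00⟩ := h0
  -- the largest elements
  obtain ⟨x, hx, hxB, hxm⟩ : ∃ x ∈ I, x ≤ B ∧ ∀ i ∈ I, i ≤ B → i ≤ x := by
    have hfin : {i | i ∈ I ∧ i ≤ B}.Finite := (Set.finite_le_nat B).subset fun i hi => hi.2
    obtain ⟨x, hx, hm⟩ := hfin.exists_maximal ⟨x0, hx0, hx0B⟩
    refine ⟨x, hx.1, hx.2, fun i hi hiB => ?_⟩
    rcases Nat.le_total i x with h' | h'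
    · exact h'
    · exact hm ⟨hi, hiB⟩ h'
  obtain ⟨y, hy, hyB, hym⟩ : ∃ y ∈ J, y ≤ B ∧ ∀ j ∈ J, j ≤ B → j ≤ y := by
    have hfin : {i | i ∈ J ∧ i ≤ B}.Finite := (Set.finite_le_nat B).subset fun i hi => hi.2
    obtain ⟨x, hx, hm⟩ := hfin.exists_maximal ⟨y0, hy0, hy0B⟩
    refine ⟨x, hx.1, hx.2, fun i hi hiB => ?_⟩
    rcases Nat.le_total i x with h' | h'
    · exact h'
    · exact hm ⟨hi, hiB⟩ h'
  have hx0x := hxm x0 hx0 hx0B
  have hy0y := hym y0 hy0 hy0B
  have hxy := hgap _ (h x hx y hy) (by omega)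
  -- the least elements with a long sum
  have hexi : ∃ i, i ∈ I ∧ B < i + y := ⟨x, hx, by omega⟩
  have hexj : ∃ j, j ∈ J ∧ B < x + j := ⟨y, hy, by omega⟩
  obtain ⟨i2, ⟨hi2, hi2B⟩, hi2m⟩ : ∃ i, (i ∈ I ∧ B < i + y) ∧ ∀ i' < i, ¬ (i' ∈ I ∧ B < i' + y) :=
    ⟨Nat.find hexi, Nat.find_spec hexi, fun i' hi' => Nat.find_min hexi hi'⟩
  obtain ⟨j2, ⟨hj2, hj2B⟩, hj2m⟩ : ∃ j, (j ∈ J ∧ B < x + j) ∧ ∀ j' < j, ¬ (j' ∈ J ∧ B < x + j') :=
    ⟨Nat.find hexj, Nat.find_spec hexj, fun j' hj' => Nat.find_min hexj hj'⟩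
  have hi2g := hgap _ (h i2 hi2 y hy) hi2B
  have hj2g := hgap _ (h x hx j2 hj2) hj2B
  have hi3 : ∀ i ∈ I, i < i2 → i + y ≤ B := by
    intro i hi hlt
    by_contra hcon
    exact hi2m i hlt ⟨hi, by omega⟩
  have hj3 : ∀ j ∈ J, j < j2 → x + j ≤ B := by
    intro j hj hlt
    by_contra hcon
    exact hj2m j hlt ⟨hj, by omega⟩
  rcases Nat.le_total i2 j2 with hle | hle
  · refine ⟨i2 - 1, by omega, fun i hi j hj h1 h2 => ?_⟩
    have h3 := hi3 i hi (by omega)
    have h4 := hj3 j hj (by omega)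
    omega
  · refine ⟨j2 - 1, by omega, fun i hi j hj h1 h2 => ?_⟩
    have h3 := hi3 i hi (by omega)
    have h4 := hj3 j hj (by omega)
    omega

/-- the condition on a set which allows the removal of the long runs -/
def Cut (S : Set ℕ) : Prop :=
  (∃ d ∈ S, 0 < d ∧ (∀ j ∈ S, 0 < j → d ≤ j) ∧ 2 * d ∉ S) ∨
    ∃ B, (∃ d ∈ S, 0 < d ∧ 2 * d ≤ B) ∧ ∀ j ∈ S, B < j → 3 * B < 2 * j

theorem shrink_cut {C : Finset (List ℕ)} (hC : UD C) (hL : RunLang n S = Fac C) (hn : 3 ≤ n)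
    (hne : ∀ a < n, ∃ j ∈ S a, 0 < j) (c : ℕ) (hc : c < n) (h : Cut (S c)) :
    ∃ B, (∃ j ∈ S c, 0 < j ∧ j ≤ B) ∧ ∃ C' : Finset (List ℕ), UD C' ∧
      RunLang n (Function.update S c {j | j ∈ S c ∧ j ≤ B}) = Fac C' := by
  classical
  let J : Set ℕ := {j | Head C c j ∨ (0 < j ∧ List.replicate j c ∈ C)}
  let I : Set ℕ := {i | ∀ j ∈ J, i + j ∈ Ez S c}
  have hpow : ∀ k, 0 < k → List.replicate k c ∈ C → ∀ e ∈ Ez S c, e + k ∈ Ez S c := by
    intro k hk0 hk e he
    rcases Nat.eq_zero_or_pos e with h1 | h1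
    · rw [h1, Nat.zero_add]
      exact Or.inr (power_mem hC hL hn hne c k hk0 hk)
    · exact Or.inr (closure hL (by omega) hne c k hc hk0 hk e (ez_pos he h1) h1)
  have hJ0 : (0 : ℕ) ∈ J := Or.inl (head_zero hC hL hn hne c)
  have hJE : ∀ j ∈ J, j ∈ Ez S c := by
    rintro j (hj | ⟨hj0, hj⟩)
    · have := tail_head hL (tail_zero hC hL hn hne c) hj
      rwa [Nat.zero_add] at this
    · have := hpow j hj0 hj 0 (ez0 c)
      rwa [Nat.zero_add] at this
  have hI0 : (0 : ℕ) ∈ I := by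
    intro j hj
    rw [Nat.zero_add]
    exact hJE j hj
  have hIE : ∀ i ∈ I, i ∈ Ez S c := by
    intro i hi
    have := hi 0 hJ0
    rwa [Nat.add_zero] at this
  have hTI : ∀ i, Tail C c i → i ∈ I := by
    intro i hi j hj
    rcases hj with hj | ⟨hj0, hj⟩
    · exact tail_head hL hi hj
    · refine hpow j hj0 hj i ?_
      have := tail_head hL hi (head_zero hC hL hn hne c)
      rwa [Nat.add_zero] at this
  have hIk : ∀ k, 0 < k → List.replicate k c ∈ C → ∀ i ∈ I, i + k ∈ I := by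
    intro k hk0 hk i hi j hj
    have := hpow k hk0 hk _ (hi j hj)
    have h2 : i + k + j = i + j + k := by omega
    rw [h2]
    exact this
  obtain ⟨B, hB1, hB2⟩ : ∃ B, (∃ j ∈ S c, 0 < j ∧ j ≤ B) ∧
      ∀ i ∈ I, ∀ j ∈ J, i ≤ B → j ≤ B → i + j ≤ B := by
    rcases h with ⟨d, hd, hd0, hdm, h2d⟩ | ⟨B0, ⟨d, hd, hd0, hdB⟩, hgap⟩
    · refine ⟨d, ⟨d, hd, hd0, le_rfl⟩, fun i hi j hj hid hjd => ?_⟩
      have h1 : i = 0 ∨ d ≤ i := by
        rcases Nat.eq_zero_or_pos i with h | h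
        · exact Or.inl h
        · exact Or.inr (hdm i (ez_pos (hIE i hi) h) h)
      have h2 : j = 0 ∨ d ≤ j := by
        rcases Nat.eq_zero_or_pos j with h | h
        · exact Or.inl h
        · exact Or.inr (hdm j (ez_pos (hJE j hj) h) h)
      by_contra hcon
      have h3 : i = d := by omega
      have h4 : j = d := by omega
      have h5 := ez_pos (hi j hj) (by omega)
      rw [h3, h4] at h5
      apply h2d
      have h6 : 2 * d = d + d := by ring
      rw [h6]
      exact h5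
    · obtain ⟨B, h1, h2⟩ := chain (E := Ez S c) (I := I) (J := J) (fun i hi j hj => hi j hj) B0 d hdB
        (by
          intro e he hlt
          exact hgap e (ez_pos he (by omega)) hlt)
      exact ⟨B, ⟨d, hd, hd0, h1⟩, h2⟩
  refine ⟨B, hB1, ?_⟩
  refine shrink_gen hC hL hn hne c B hB1 (fun i j hi hj => hB2 i (hTI i hi) j (Or.inl hj)) ?_
  intro k hk0 hk
  by_contra hcon
  have hkB : k ≤ B := by omega
  have key : ∀ t, ∃ i ∈ I, t ≤ i ∧ i ≤ B := by
    intro t
    induction t with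
    | zero => exact ⟨0, hI0, le_rfl, Nat.zero_le _⟩
    | succ t ih =>
      obtain ⟨i, hi, hti, hiB⟩ := ih
      exact ⟨i + k, hIk k hk0 hk i hi, by omega, hB2 i hi k (Or.inr ⟨hk0, hk⟩) hiB hkB⟩
  obtain ⟨i, hi, h1, h2⟩ := key (B + 1)
  omega

/-- making the series of one letter have a zero -/
theorem fix_cut {n : ℕ} {S : ℕ → Set ℕ} {C : Finset (List ℕ)} (hC : UD C)
    (hL : RunLang n S = Fac C) (hn : 3 ≤ n) (hne : ∀ a < n, ∃ j ∈ S a, 0 < j) (c : ℕ)
    (hc : c < n) (h : HZ (Ez S c) ∨ Cut (S c)) :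
    ∃ (S' : ℕ → Set ℕ) (C' : Finset (List ℕ)), UD C' ∧ RunLang n S' = Fac C' ∧
      (∀ a < n, ∃ j ∈ S' a, 0 < j) ∧ HZ (Ez S' c) ∧ ∀ a, a ≠ c → S' a = S a := by
  classical
  rcases h with h | h
  · exact ⟨S, C, hC, hL, hne, h, fun _ _ => rfl⟩
  · obtain ⟨B, h1, C', h3, h4⟩ := shrink_cut hC hL hn hne c hc h
    refine ⟨_, C', h3, h4, ?_, ?_, fun a ha => Function.update_of_ne ha ..⟩
    · intro a ha
      by_cases hac : a = c
      · subst hac
        rw [Function.update_self]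
        obtain ⟨j, k1, k2, k3⟩ := h1
        exact ⟨j, ⟨k1, k3⟩, k2⟩
      · rw [Function.update_of_ne hac]
        exact hne a ha
    · unfold Ez
      rw [Function.update_self]
      obtain ⟨j, k1, k2, k3⟩ := h1
      refine hz_fin ?_ ⟨j, Or.inr ⟨k1, k3⟩, k2⟩
      refine Set.Finite.insert 0 ((Set.finite_le_nat B).subset fun j hj => hj.2)

/-- the three kinds of sets -/
theorem kinds2 {S : Set ℕ} (hS : Closed S) (hne : ∃ j ∈ S, 0 < j)
    (hN : ¬ Pool.Agent.Helper37.RW.Neutral S) (hE : ¬ Exceptional S) :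
    HZ (insert 0 S) ∨ Cut S := by
  rcases hS with h | ⟨k, hk, hk0, hcl⟩
  · left
    obtain ⟨j, hj, hj0⟩ := hne
    exact hz_fin (h.insert 0) ⟨j, Or.inr hj, hj0⟩
  · have h1 : ∀ j ∈ insert 0 S, k + j ∈ insert 0 S := by
      rintro j (hj | hj)
      · rw [hj]
        exact Or.inr hk
      · rw [Nat.add_comm]
        exact Or.inr (hcl j hj)
    rcases hz_or_closed k hk0 h1 with h2 | h2
    · exact Or.inl h2
    · right
      by_contra hcon
      apply hE
      refine ⟨by rw [ser_eq]; exact h2, hN, fun d hd hd0 hdm => ?_, fun B hB => ?_⟩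
      · by_contra h2d
        exact hcon (Or.inl ⟨d, hd, hd0, hdm, h2d⟩)
      · by_contra hno
        push Not at hno
        exact hcon (Or.inr ⟨B, hB, fun j hj hlt => hno j hj hlt⟩)

end Pool.Agent.Helper37.RY
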