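import Pool.Agent.Helper37.RX.J
import Pool.Agent.Helper37.RY.A

/-!
# The theorem for arbitrary sets of run lengths, with the smaller class of exceptional sets
-/

set_option autoImplicit false

namespace Pool.Agent.Helper37.RY

open Pool.Agent.Helper31.BD
open Pool.Agent.Helper37.RV (Complete RunLang Ez)
open Pool.Agent.Helper37.RW (ColLang Neutral lift_code)
open Pool.Agent.Helper37.RX hiding Exceptional

/-- at least three colours -/
theorem main_three (N : ℕ) (π : ℕ → ℕ) (n : ℕ) (S : ℕ → Set ℕ) (hn : 3 ≤ n)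
    (hsur : ∀ c < n, ∃ l < N, π l = c) (hne : ∀ c < n, ∃ j ∈ S c, 0 < j) :
    ((∃ C : Finset (List ℕ), UD C ∧ ColLang N π n S = Fac C) →
      (∀ c < n, Closed (S c)) ∧
        {c | c < n ∧ ¬ Neutral (S c) ∧ ¬ Exceptional (S c)}.ncard ≤ 2) ∧
    ((∀ c < n, Closed (S c)) ∧ {c | c < n ∧ ¬ Neutral (S c)}.ncard ≤ 2 →
      ∃ C : Finset (List ℕ), UD C ∧ ColLang N π n S = Fac C) := by
  classical
  constructor
  · rintro ⟨C, hC, hL⟩
    obtain ⟨C0, hC0, hL0⟩ := plain N π hsur (by omega) hne hC hL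
    have hcl : ∀ c < n, Closed (S c) := fun c hc => closed_of hC0 hL0 hn hne c hc
    refine ⟨hcl, ?_⟩
    by_contra hcard
    push Not at hcard
    have hfin : {c | c < n ∧ ¬ Neutral (S c) ∧ ¬ Exceptional (S c)}.Finite :=
      (Set.finite_lt_nat n).subset (fun a ha => ha.1)
    rw [Set.ncard_eq_toFinset_card _ hfin] at hcard
    obtain ⟨a, b, c, ha, hb, hc, hab, hac, hbc⟩ := Finset.two_lt_card_iff.1 hcard
    have ha' := hfin.mem_toFinset.1 ha
    have hb' := hfin.mem_toFinset.1 hb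
    have hc' := hfin.mem_toFinset.1 hc
    have ka := kinds2 (hcl a ha'.1) (hne a ha'.1) ha'.2.1 ha'.2.2
    have kb := kinds2 (hcl b hb'.1) (hne b hb'.1) hb'.2.1 hb'.2.2
    have kc := kinds2 (hcl c hc'.1) (hne c hc'.1) hc'.2.1 hc'.2.2
    obtain ⟨S1, C1, hC1, hL1, hne1, hz1, he1⟩ := fix_cut hC0 hL0 hn hne a ha'.1 ka
    have kb1 : HZ (Ez S1 b) ∨ Cut (S1 b) := by
      unfold Ez
      rw [he1 b hab.symm]
      exact kb
    obtain ⟨S2, C2, hC2, hL2, hne2, hz2, he2⟩ := fix_cut hC1 hL1 hn hne1 b hb'.1 kb1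
    have kc2 : HZ (Ez S2 c) ∨ Cut (S2 c) := by
      unfold Ez
      rw [he2 c hbc.symm, he1 c hac.symm]
      exact kc
    obtain ⟨S3, C3, hC3, hL3, hne3, hz3, he3⟩ := fix_cut hC2 hL2 hn hne2 c hc'.1 kc2
    have hza : HZ (Ez S3 a) := by
      unfold Ez at hz1 ⊢
      rw [he3 a hac, he2 a hab]
      exact hz1
    have hzb : HZ (Ez S3 b) := by
      unfold Ez at hz2 ⊢
      rw [he3 b hbc]
      exact hz2
    exact no_code2 (by omega) a b c hab hac hbc ha'.1 hb'.1 hc'.1 hne3 hza hzb hz3 C3 hC3 hL3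
  · exact (Pool.Agent.Helper37.RX.main_three N π n S hn hsur hne).2

/-- **Theorem.** -/
theorem main_all (N : ℕ) (π : ℕ → ℕ) (n : ℕ) (S : ℕ → Set ℕ) (hn : 2 ≤ n)
    (hsur : ∀ c < n, ∃ l < N, π l = c) (hne : ∀ c < n, ∃ j ∈ S c, 0 < j)
    (hE : n = 2 ∨ ∀ c < n, ¬ Exceptional (S c)) :
    (∃ C : Finset (List ℕ), UD C ∧ ColLang N π n S = Fac C) ↔
      AllClosed n S ∧ {c | c < n ∧ ¬ Neutral (S c)}.ncard ≤ 2 := by
  classical
  by_cases h2 : n = 2
  · exact Pool.Agent.Helper37.RX.main_all N π n S hn hsur hne (Or.inl h2)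
  · have hE' := hE.resolve_left h2
    obtain ⟨h3, h4⟩ := main_three N π n S (by omega) hsur hne
    constructor
    · intro h
      obtain ⟨h5, h6⟩ := h3 h
      refine ⟨Or.inl h5, ?_⟩
      have he : {c | c < n ∧ ¬ Neutral (S c)} =
          {c | c < n ∧ ¬ Neutral (S c) ∧ ¬ Exceptional (S c)} := by
        ext c
        exact ⟨fun hc => ⟨hc.1, hc.2, hE' c hc.1⟩, fun hc => ⟨hc.1, hc.2.1⟩⟩
      rw [he]
      exact h6
    · rintro ⟨h | ⟨h, _⟩, h'⟩
      · exact h4 ⟨h, h'⟩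
      · exact absurd h h2

end Pool.Agent.Helper37.RY
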